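import Mathlib

/-! Project OP: an endomorphism which commutes with `g ^ M` commutes with `g`. -/

set_option autoImplicit false

namespace Pool.Agent.Y824.OP

open Module Polynomial TensorProduct

section

variable {F V : Type} [Field F] [CharZero F] [IsAlgClosed F] [AddCommGroup V] [Module F V]
  [FiniteDimensional F V]

/-- no nonzero map carries `ζ g` to `g` -/
lemma no_twist {g g' : End F V} {M : ℕ} (h2 : g' * g = 1)
    (hinj : ∀ a b, g.HasEigenvalue a → g.HasEigenvalue b → a ^ M = b ^ M → a = b) {ζ : F}
    (hζ : ζ ^ M = 1) (hζ1 : ζ ≠ 1) {Z : End F V} (hZ : g * Z = ζ • (Z * g)) : Z = 0 := by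
  have hq : ∀ q : F[X], aeval g q * Z = Z * aeval (ζ • g) q := by
    intro q
    induction q using Polynomial.induction_on' with
    | add p q hp hq => rw [map_add, map_add, add_mul, mul_add, hp, hq]
    | monomial n a =>
      rw [← C_mul_X_pow_eq_monomial, map_mul, map_mul, aeval_C, aeval_C, map_pow, map_pow,
        aeval_X, aeval_X]
      have hn : g ^ n * Z = Z * (ζ • g) ^ n := by
        induction n with
        | zero => simp
        | succ n ih =>
          rw [pow_succ, mul_assoc, hZ, mul_smul_comm, ← mul_assoc, ih, pow_succ, mul_assoc,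
            mul_smul_comm, mul_smul_comm]
      rw [mul_assoc, hn, Algebra.algebraMap_eq_smul_one, smul_one_mul, smul_one_mul,
        mul_smul_comm]
  set p := minpoly F g with hp
  have h0 : Z * aeval (ζ • g) p = 0 := by
    rw [← hq, minpoly.aeval, zero_mul]
  have h3 : aeval (ζ • g) p = aeval g (p.comp (C ζ * X)) := by
    rw [aeval_comp, map_mul, aeval_C, aeval_X, Algebra.algebraMap_eq_smul_one, smul_one_mul]
  have hcop : IsCoprime (p.comp (C ζ * X)) p := by
    rw [isCoprime_iff_aeval_ne_zero_of_isAlgClosed F F]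
    intro x
    by_contra hcon
    push Not at hcon
    obtain ⟨e1, e2⟩ := hcon
    have r1 : g.HasEigenvalue (ζ * x) := by
      rw [End.hasEigenvalue_iff_isRoot, IsRoot.def]
      simpa [aeval_def, eval_comp] using e1
    have r2 : g.HasEigenvalue x := by
      rw [End.hasEigenvalue_iff_isRoot, IsRoot.def]
      simpa [aeval_def] using e2
    have h4 := hinj _ _ r1 r2 (by rw [mul_pow, hζ, one_mul])
    have h5 : x ≠ 0 := by
      rintro rfl
      obtain ⟨v, hv⟩ := r2.exists_hasEigenvector
      have h6 : g v = 0 := by rw [hv.apply_eq_smul, zero_smul]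
      have h7 : (g' * g) v = 0 := by rw [End.mul_apply, h6, map_zero]
      rw [h2, End.one_apply] at h7
      exact hv.2 h7
    exact hζ1 (mul_right_cancel₀ h5 (h4.trans (one_mul x).symm))
  obtain ⟨a, b, hab⟩ := hcop
  have h4 : aeval g (p.comp (C ζ * X)) * aeval g a = 1 := by
    have := congrArg (aeval g) hab
    rw [map_add, map_mul, map_mul, minpoly.aeval, mul_zero, add_zero, map_one] at this
    rw [← this, ← map_mul, ← map_mul, mul_comm]
  calc Z = Z * (aeval g (p.comp (C ζ * X)) * aeval g a) := by rw [h4, mul_one]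
    _ = (Z * aeval (ζ • g) p) * aeval g a := by rw [h3, mul_assoc]
    _ = 0 := by rw [h0, zero_mul]

theorem core {g g' : End F V} {M : ℕ} (h1 : g * g' = 1) (h2 : g' * g = 1) (hM : 0 < M)
    (hinj : ∀ a b, g.HasEigenvalue a → g.HasEigenvalue b → a ^ M = b ^ M → a = b)
    {Y : End F V} (hY : g ^ M * Y = Y * g ^ M) : g * Y = Y * g := by
  set T : End F (End F V) := LinearMap.mulLeft F g ∘ₗ LinearMap.mulRight F g' with hT
  have hTa : ∀ Z, T Z = g * (Z * g') := fun Z => rfl
  have hTp : ∀ (n : ℕ) (Z : End F V), (T ^ n) Z = g ^ n * (Z * g' ^ n) := by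
    intro n
    induction n with
    | zero => intro Z; simp
    | succ n ih =>
      intro Z
      rw [pow_succ, End.mul_apply, ih, hTa, pow_succ, pow_succ']
      simp only [mul_assoc]
  have hTM : (T ^ M) Y = Y := by
    have h3 : g ^ M * g' ^ M = 1 := by
      have hc : Commute g g' := by
        change g * g' = g' * g
        rw [h1, h2]
      rw [← hc.mul_pow, h1, one_pow]
    rw [hTp, ← mul_assoc, hY, mul_assoc, h3, mul_one]
  set h : F[X] := ∑ i ∈ Finset.range M, X ^ i with hh
  have hgeom : h * (X - 1) = X ^ M - 1 := geom_sum_mul X M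
  have hW : aeval T h (T Y - Y) = 0 := by
    have h3 : aeval T (h * (X - 1)) Y = 0 := by
      rw [hgeom, map_sub, map_pow, aeval_X, map_one, LinearMap.sub_apply, hTM, End.one_apply,
        sub_self]
    rwa [map_mul, map_sub, aeval_X, map_one, End.mul_apply, LinearMap.sub_apply,
      End.one_apply] at h3
  have hcop : IsCoprime h (minpoly F T) := by
    rw [isCoprime_iff_aeval_ne_zero_of_isAlgClosed F F]
    intro ζ
    by_contra hcon
    push Not at hcon
    obtain ⟨e1, e2⟩ := hcon
    have e3 : eval ζ h = 0 := by simpa [aeval_def] using e1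
    have e4 : ζ ^ M = 1 := by
      have := congrArg (eval ζ) hgeom
      rw [eval_mul, e3, zero_mul, eval_sub, eval_pow, eval_X, eval_one] at this
      exact (sub_eq_zero.1 this.symm)
    have e5 : ζ ≠ 1 := by
      rintro rfl
      rw [hh, eval_finsetSum] at e3
      simp only [eval_pow, eval_X, one_pow, Finset.sum_const, Finset.card_range, nsmul_eq_mul,
        mul_one] at e3
      exact hM.ne' (by exact_mod_cast e3)
    have r2 : T.HasEigenvalue ζ := by
      rw [End.hasEigenvalue_iff_isRoot, IsRoot.def]
      simpa [aeval_def] using e2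
    obtain ⟨Z, hZ⟩ := r2.exists_hasEigenvector
    refine hZ.2 (no_twist h2 hinj e4 e5 (Z := Z) ?_)
    have e6 : g * (Z * g') = ζ • Z := hZ.apply_eq_smul
    calc g * Z = g * (Z * g') * g := by rw [mul_assoc, mul_assoc, h2, mul_one]
      _ = ζ • (Z * g) := by rw [e6, smul_mul_assoc]
  obtain ⟨a, b, hab⟩ := hcop
  have h5 : T Y - Y = 0 := by
    have h6 := congrArg (fun q => aeval T q (T Y - Y)) hab
    simp only [map_add, map_mul, minpoly.aeval, mul_zero, add_zero, map_one, End.mul_apply,
      End.one_apply, hW, map_zero] at h6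
    exact h6.symm
  have h6 : g * (Y * g') = Y := sub_eq_zero.1 h5
  calc g * Y = g * (Y * g') * g := by rw [mul_assoc, mul_assoc, h2, mul_one]
    _ = Y * g := by rw [h6]

end

theorem pw_core (k : Type) [Field k] [CharZero k] (V : Type) [AddCommGroup V] [Module k V]
    [FiniteDimensional k V] (g g' : End k V) (M : ℕ) (h1 : g * g' = 1) (h2 : g' * g = 1)
    (hM : 0 < M)
    (hinj : ∀ a b : AlgebraicClosure k, aeval a g.charpoly = 0 → aeval b g.charpoly = 0 →
      a ^ M = b ^ M → a = b) (Y : End k V) (hY : g ^ M * Y = Y * g ^ M) : g * Y = Y * g := by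
  set C := AlgebraicClosure k with hC
  set β := End.baseChangeHom k C V with hβ
  have hi : Function.Injective β := LinearMap.baseChangeHom_injective k V C
  have hchar : (β g).charpoly = g.charpoly.map (algebraMap k C) := LinearMap.charpoly_baseChange g C
  have hroot : ∀ a, (β g).HasEigenvalue a → aeval a g.charpoly = 0 := by
    intro a ha
    rw [End.hasEigenvalue_iff_isRoot_charpoly, hchar, IsRoot.def, eval_map_algebraMap] at ha
    exact ha
  apply hi
  rw [map_mul, map_mul]
  refine core (g := β g) (g' := β g') (M := M) ?_ ?_ hM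
    (fun a b ha hb => hinj a b (hroot a ha) (hroot b hb)) ?_
  · rw [← map_mul, h1, map_one]
  · rw [← map_mul, h2, map_one]
  · rw [← map_pow, ← map_mul, hY, map_mul]

end Pool.Agent.Y824.OP
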