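import Pool.Agent.Y114.OP.Stm
import Pool.Agent.Y824.OP.PwCore

/-! Project OP: the task `S_PW`. -/

set_option autoImplicit false

namespace Pool.Agent.Y824.OP

theorem pw : Pool.Agent.Y114.OP.S_PW := by
  intro k _ _ V _ _ _ g g' M h1 h2 hM hinj Y hY
  exact pw_core k V g g' M h1 h2 hM hinj Y hY

end Pool.Agent.Y824.OP
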